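import Pool.Agent.H17.UN.Tow

/-!
# Changing the last variable of an algebraically independent family
-/

set_option autoImplicit false

open Polynomial
open Pool.Agent.H17.UN

namespace Pool.Agent.H50.UN

section

variable {F L : Type} [Field F] [Field L] [Algebra F L] {r : ℕ}

lemma AIG_option (t : Fin r → Lˣ) (w : Lˣ) :
    AlgebraicIndependent F (fun j => ((Fin.snoc t w : Fin (r + 1) → Lˣ) j : L)) ↔
      AlgebraicIndependent F (fun j => (t j : L)) ∧
        Transcendental (Algebra.adjoin F (Set.range fun j => (t j : L))) (w : L) := by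
  rw [← AlgebraicIndependent.option_iff, ← algebraicIndependent_equiv
    (finSuccEquivLast (n := r))
    (f := fun o : Option (Fin r) => o.elim (w : L) (fun j => (t j : L)))]
  have e : ((fun o : Option (Fin r) => o.elim (w : L) (fun j => (t j : L))) ∘
      (finSuccEquivLast (n := r))) = fun j => ((Fin.snoc t w : Fin (r + 1) → Lˣ) j : L) := by
    funext j
    refine Fin.lastCases ?_ (fun i => ?_) j
    · simp
    · simp
  rw [e]

lemma AIG_adjoin_le (t : Fin r → Lˣ) (w w' : Lˣ)
    (h : (w : L) ∈ IntermediateField.adjoin F (Set.range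
      (fun j => ((Fin.snoc t w' : Fin (r + 1) → Lˣ) j : L)))) :
    IntermediateField.adjoin F (Set.range
      (fun j => ((Fin.snoc t w : Fin (r + 1) → Lˣ) j : L))) ≤
    IntermediateField.adjoin F (Set.range
      (fun j => ((Fin.snoc t w' : Fin (r + 1) → Lˣ) j : L))) := by
  rw [IntermediateField.adjoin_le_iff]
  rintro _ ⟨j, rfl⟩
  refine Fin.lastCases ?_ (fun i => ?_) j
  · simpa using h
  · have h1 : ((Fin.snoc t w' : Fin (r + 1) → Lˣ) i.castSucc : L) ∈
        IntermediateField.adjoin F (Set.range
          (fun j => ((Fin.snoc t w' : Fin (r + 1) → Lˣ) j : L))) :=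
      IntermediateField.subset_adjoin _ _ ⟨i.castSucc, rfl⟩
    simpa using h1

lemma AIG_mem_last (t : Fin r → Lˣ) (w : Lˣ) :
    (w : L) ∈ IntermediateField.adjoin F (Set.range
      (fun j => ((Fin.snoc t w : Fin (r + 1) → Lˣ) j : L))) := by
  refine IntermediateField.subset_adjoin _ _ ⟨Fin.last r, ?_⟩
  simp

lemma AIG_mem_old (t : Fin r → Lˣ) (w : Lˣ) (g : L)
    (hg : g ∈ IntermediateField.adjoin F (Set.range (fun j => (t j : L)))) :
    g ∈ IntermediateField.adjoin F (Set.range
      (fun j => ((Fin.snoc t w : Fin (r + 1) → Lˣ) j : L))) := by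
  refine (IntermediateField.adjoin_le_iff.mpr ?_) hg
  rintro _ ⟨i, rfl⟩
  refine IntermediateField.subset_adjoin _ _ ⟨i.castSucc, ?_⟩
  simp

end

theorem pf_AIG : T_AIG := by
  intro F L _ _ _ r t w g hg hind
  rw [AIG_option] at hind ⊢
  refine ⟨⟨hind.1, ?_⟩, ?_⟩
  · intro halg
    apply hind.2
    have hga : IsAlgebraic (Algebra.adjoin F (Set.range fun j => (t j : L))) (g : L) := by
      obtain ⟨a, ha, b, hb, hab⟩ := IntermediateField.mem_adjoin_iff_div.mp hg
      rw [hab, div_eq_mul_inv]
      have h1 : IsAlgebraic (Algebra.adjoin F (Set.range fun j => (t j : L))) (a : L) :=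
        isAlgebraic_algebraMap (⟨a, ha⟩ : Algebra.adjoin F (Set.range fun j => (t j : L)))
      have h2 : IsAlgebraic (Algebra.adjoin F (Set.range fun j => (t j : L))) (b : L) :=
        isAlgebraic_algebraMap (⟨b, hb⟩ : Algebra.adjoin F (Set.range fun j => (t j : L)))
      exact h1.mul h2.inv
    have h3 := halg.mul hga
    have h4 : ((w / g : Lˣ) : L) * (g : L) = (w : L) := by
      rw [← Units.val_mul, div_mul_cancel]
    rwa [h4] at h3
  · apply le_antisymm
    · apply AIG_adjoin_le
      have h5 := AIG_mem_last (F := F) t w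
      have h6 := AIG_mem_old (F := F) t w _ hg
      have h7 := div_mem h5 h6
      rwa [← Units.val_div_eq_div_val] at h7
    · apply AIG_adjoin_le
      have h5 := AIG_mem_last (F := F) t (w / g)
      have h6 := AIG_mem_old (F := F) t (w / g) _ hg
      have h7 := mul_mem h5 h6
      rwa [← Units.val_mul, div_mul_cancel] at h7

end Pool.Agent.H50.UN
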