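import Pool.Agent.H17.UN.Tow

/-!
# The divisor of a linear function of the base
-/

set_option autoImplicit false

open Polynomial
open Pool.Agent.H17.UN

namespace Pool.Agent.H50.UN

section

variable {k F : Type} [Field k] [Field F] [Algebra k F] {n : ℕ} {A : Fin n → Subalgebra k F}

lemma DSE_one (v : PrimeDivisor A) : v.ord 1 = 0 := by
  have h := v.ord_mul 1 1 one_ne_zero one_ne_zero
  rw [mul_one] at h
  omega

lemma DSE_neg (v : PrimeDivisor A) (u : F) : v.ord (-u) = v.ord u := by
  rcases eq_or_ne u 0 with rfl | hu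
  · rw [neg_zero]
  · have h1 := v.ord_mul (-1) (-1) (by simp) (by simp)
    rw [neg_mul_neg, mul_one, DSE_one] at h1
    have h2 := v.ord_mul (-1) u (by simp) hu
    rw [neg_one_mul] at h2
    omega

lemma DSE_const (v : PrimeDivisor A) (c : k) : v.ord (algebraMap k F c) = 0 := by
  rcases eq_or_ne c 0 with rfl | hc
  · rw [map_zero, v.ord_zero]
  · obtain ⟨i, hi, -⟩ := v.centre
    have h1 := hi (algebraMap k F c) ((A i).algebraMap_mem c)
    have h2 := hi (algebraMap k F c⁻¹) ((A i).algebraMap_mem c⁻¹)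
    have hc1 : algebraMap k F c ≠ 0 := by
      rw [Ne, map_eq_zero]; exact hc
    have hc2 : algebraMap k F c⁻¹ ≠ 0 := by
      rw [Ne, map_eq_zero]; exact inv_ne_zero hc
    have h3 := v.ord_mul _ _ hc1 hc2
    rw [← map_mul, mul_inv_cancel₀ hc, map_one, DSE_one] at h3
    omega

lemma DSE_dom (v : PrimeDivisor A) (u u' : F) (hu' : u' ≠ 0) (h : v.ord u' < v.ord u)
    (hu : u ≠ 0) : v.ord (u + u') = v.ord u' := by
  have hs : u + u' ≠ 0 := by
    intro h0
    have h1 : u = -u' := eq_neg_of_add_eq_zero_left h0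
    rw [h1, DSE_neg] at h
    exact lt_irrefl _ h
  have h1 := v.ord_add u u' hu hu' hs
  rw [min_eq_right h.le] at h1
  have h2 := v.ord_add (u + u') (-u) hs (neg_ne_zero.mpr hu) (by
    rw [add_comm u u', add_neg_cancel_right]; exact hu')
  rw [add_comm u u', add_neg_cancel_right, DSE_neg] at h2
  rw [add_comm u u'] at h1 ⊢
  rcases min_le_iff.mp h2 with h3 | h3
  · exact le_antisymm h3 h1
  · exact absurd h3 (not_le.mpr h)

/-- at a point of the base the other linear functions are units -/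
lemma DSE_L2 (v : PrimeDivisor A) (s : F) (a b : k) (h : v.ord (s - algebraMap k F a) = 1)
    (hab : a ≠ b) : v.ord (s - algebraMap k F b) = 0 := by
  have h0 : s - algebraMap k F a ≠ 0 := by
    intro h1
    rw [h1, v.ord_zero] at h
    exact absurd h (by norm_num)
  have hc : algebraMap k F (a - b) ≠ 0 := by
    rw [Ne, map_eq_zero]; exact sub_ne_zero.mpr hab
  have h2 := DSE_dom v (s - algebraMap k F a) (algebraMap k F (a - b)) hc
    (by rw [DSE_const, h]; norm_num) h0
  rw [DSE_const, map_sub, sub_add_sub_cancel] at h2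
  exact h2

lemma DSE_L1 (v : PrimeDivisor A) (s : F) (a : k) (h : v.ord (s - algebraMap k F a) = 1) :
    v.ord s ≠ -1 := by
  rcases eq_or_ne a 0 with rfl | ha
  · rw [map_zero, sub_zero] at h
    rw [h]; norm_num
  · have h2 := DSE_L2 v s a 0 h ha
    rw [map_zero, sub_zero] at h2
    rw [h2]; norm_num

lemma DSE_L3 (v : PrimeDivisor A) (s : F) (b : k) (h : v.ord s = -1) :
    v.ord (s - algebraMap k F b) = -1 := by
  rcases eq_or_ne b 0 with rfl | hb
  · rw [map_zero, sub_zero, h]
  · have h0 : s ≠ 0 := by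
      intro h1
      rw [h1, v.ord_zero] at h
      exact absurd h (by norm_num)
    have hc : algebraMap k F (-b) ≠ 0 := by
      rw [Ne, map_eq_zero]; exact neg_ne_zero.mpr hb
    have h2 := DSE_dom v (algebraMap k F (-b)) s h0 (by rw [DSE_const, h]; norm_num) hc
    rw [h, map_neg, neg_add_eq_sub] at h2
    exact h2

end

lemma DSE_sgn {k : Type} [Field k] (a b : k) (h : a ^ 2 = b ^ 2) : a = b ∨ a = -b :=
  sq_eq_sq_iff_eq_or_eq_neg.mp h

theorem pf_DSE (hVCL : T_VCL) (hVUN : T_VUN) (hVDS : T_VDS) : T_DSE := by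
  intro k F _ _ _ _ _ P Q s y z hCB e r ρ D hFr i v' hv' v
  have hcop : ∀ a : k, P.eval a = 0 → Q.eval a = 0 → False := by
    intro a h1 h2
    obtain ⟨u, w, huw⟩ := hCB.sep.isCoprime
    have h3 := congrArg (fun p => eval a p) huw
    simp [h1, h2] at h3
  have hQ0 : Q.leadingCoeff ≠ 0 := by
    rw [Ne, leadingCoeff_eq_zero]
    intro h
    have := hCB.dQ
    rw [h, natDegree_zero] at this
    omega
  have hDi := hFr.cmp i
  have hroot : (P * Q).eval (e i) = 0 := by
    rw [eval_mul]
    rcases hv'.2 with h | h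
    · rw [h.1, mul_zero]
    · rw [h.1, zero_mul]
  have h5 : (D 5).ord s = -1 := hFr.pos.1
  have h6 : (D 6).ord s = -1 := hFr.neg.1
  -- helper for the shape of the answer
  have n1 : ∀ w : PrimeDivisor (ch k s y z), v.ord (s - algebraMap k F (e i)) ≠ 1 →
      w.ord (s - algebraMap k F (e i)) = 1 → v ≠ w := by
    rintro w h1 h2 rfl
    exact h1 h2
  have n2 : ∀ w : PrimeDivisor (ch k s y z), v.ord s ≠ -1 → w.ord s = -1 → v ≠ w := by
    rintro w h1 h2 rfl
    exact h1 h2
  rcases hVCL k F P Q s y z hCB v with hH | ⟨a, ha, hav, -⟩ | ⟨a, ρ1, hC⟩ | ⟨ρ1, hC⟩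
  · -- horizontal
    have hx : v.ord (s - algebraMap k F (e i)) = 0 := hH (e i)
    have hs : v.ord s ≠ -1 := by
      have := hH 0
      rw [map_zero, sub_zero] at this
      rw [this]; norm_num
    rw [if_neg (n1 _ (by rw [hx]; norm_num) hDi.1), if_neg (n1 _ (by rw [hx]; norm_num) hv'.1),
      if_neg (n2 _ hs h5), if_neg (n2 _ hs h6), hx]
    norm_num
  · have hai : a ≠ e i := by
      rintro rfl
      exact ha hroot
    have hx := DSE_L2 v s a (e i) hav hai
    have hs := DSE_L1 v s a hav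
    rw [if_neg (n1 _ (by rw [hx]; norm_num) hDi.1), if_neg (n1 _ (by rw [hx]; norm_num) hv'.1),
      if_neg (n2 _ hs h5), if_neg (n2 _ hs h6), hx]
    norm_num
  · have hs := DSE_L1 v s a hC.1
    rcases eq_or_ne a (e i) with rfl | hai
    · have hx := hC.1
      have hr0 : r i ≠ 0 := by
        intro h0
        rcases hDi.2 with ⟨h1, h2, -⟩ | ⟨h1, h2, -⟩
        · rw [h0, zero_pow two_ne_zero] at h2
          exact hcop _ h2.symm h1
        · rw [h0, zero_pow two_ne_zero] at h2
          exact hcop _ h1 h2.symm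
      have hsq : ρ1 ^ 2 = r i ^ 2 := by
        rcases hC.2 with ⟨h1, h2, -⟩ | ⟨h1, h2, -⟩ <;> rcases hDi.2 with ⟨h3, h4, -⟩ | ⟨h3, h4, -⟩
        · rw [h2, h4]
        · exact (hcop _ h3 h1).elim
        · exact (hcop _ h1 h3).elim
        · rw [h2, h4]
      have hne : D (Fin.castAdd 2 i) ≠ v' := by
        intro h
        have h7 := ((hVDS k F P Q s y z hCB v').1 (e i) (e i) (r i) (-r i) (h ▸ hDi) hv').2
        have h8 : (2 : k) * r i = 0 := by linear_combination h7
        rcases mul_eq_zero.mp h8 with h9 | h9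
        · exact two_ne_zero h9
        · exact hr0 h9
      rcases DSE_sgn _ _ hsq with h | h
      · rw [h] at hC
        have hv : v = D (Fin.castAdd 2 i) :=
          (hVUN k F P Q s y z hCB v (D (Fin.castAdd 2 i))).1 (e i) (r i) hC hDi
        rw [if_pos hv, if_neg (by rw [hv]; exact hne), if_neg (n2 _ hs h5), if_neg (n2 _ hs h6),
          hx]
        norm_num
      · rw [h] at hC
        have hv : v = v' := (hVUN k F P Q s y z hCB v v').1 (e i) (-r i) hC hv'
        rw [if_neg (by rw [hv]; exact hne.symm), if_pos hv, if_neg (n2 _ hs h5),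
          if_neg (n2 _ hs h6), hx]
        norm_num
    · have hx := DSE_L2 v s a (e i) hC.1 hai
      rw [if_neg (n1 _ (by rw [hx]; norm_num) hDi.1),
        if_neg (n1 _ (by rw [hx]; norm_num) hv'.1), if_neg (n2 _ hs h5), if_neg (n2 _ hs h6), hx]
      norm_num
  · have hx := DSE_L3 v s (e i) hC.1
    have hρ0 : ρ ≠ 0 := by
      intro h0
      have := hFr.pos.2.1
      rw [h0, zero_pow two_ne_zero] at this
      exact hQ0 this.symm
    have hne : D 5 ≠ D 6 := by
      intro h
      have h7 := (hVDS k F P Q s y z hCB (D 5)).2.1 ρ (-ρ) hFr.pos (h ▸ hFr.neg)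
      have h8 : (2 : k) * ρ = 0 := by linear_combination h7
      rcases mul_eq_zero.mp h8 with h9 | h9
      · exact two_ne_zero h9
      · exact hρ0 h9
    have hsq : ρ1 ^ 2 = ρ ^ 2 := by rw [hC.2.1, hFr.pos.2.1]
    rcases DSE_sgn _ _ hsq with h | h
    · rw [h] at hC
      have hv : v = D 5 := (hVUN k F P Q s y z hCB v (D 5)).2 ρ hC hFr.pos
      rw [if_neg (n1 _ (by rw [hx]; norm_num) hDi.1),
        if_neg (n1 _ (by rw [hx]; norm_num) hv'.1), if_pos hv, if_neg (by rw [hv]; exact hne),
        hx]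
      norm_num
    · rw [h] at hC
      have hv : v = D 6 := (hVUN k F P Q s y z hCB v (D 6)).2 (-ρ) hC hFr.neg
      rw [if_neg (n1 _ (by rw [hx]; norm_num) hDi.1),
        if_neg (n1 _ (by rw [hx]; norm_num) hv'.1), if_neg (by rw [hv]; exact hne.symm),
        if_pos hv, hx]
      norm_num

end Pool.Agent.H50.UN
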